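import Mathlib
import Pool.Agent.Lib.MP_0b520b_lc.Family

/-!
Perfect matching formulas over the field with two elements need exponential size Polynomial
Calculus refutations.
-/

namespace Pool.Agent.Results.MP_0b520b_lc.PerfectMatchingHardMod2

open Pool.Agent.Lib.MP0b520b Filter

/-- There are graphs `G n` without perfect matchings, on `N n` vertices with `N n` tending to
infinity, and a constant `δ > 0`, such that every Polynomial Calculus refutation over `F_2` of the
perfect matching formula of `G n` has size at least `exp ((N n) ^ δ)`. -/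
theorem result :
    ∃ (δ : ℝ) (N : ℕ → ℕ) (G : ∀ n : ℕ, SimpleGraph (Fin (N n))),
      0 < δ ∧ Tendsto N atTop atTop ∧
      ∀ n : ℕ, (¬ ∃ M : (G n).Subgraph, M.IsPerfectMatching) ∧
        ∀ π : PCRefutation (PMFormula (ZMod 2) (G n)),
          Real.exp ((N n : ℝ) ^ δ) ≤ (π.size : ℝ) := by
  refine ⟨1 / 4, fun n => 12 * (10 * (n + 200) ^ 2) + 2, fun n => GG (10 * (n + 200) ^ 2),
    by norm_num, ?_, ?_⟩
  · apply tendsto_atTop_mono (f := fun n => n) _ tendsto_id
    intro n
    show n ≤ 12 * (10 * (n + 200) ^ 2) + 2
    nlinarith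
  · intro n
    refine ⟨GG_no_matching _, fun π => ?_⟩
    have h1 := size_lower (n + 200) (10 * (n + 200) ^ 2) (by omega) rfl π
    have h2 := exponent_bound (n + 200) (by omega)
    exact (Real.exp_le_exp.mpr h2).trans h1

end Pool.Agent.Results.MP_0b520b_lc.PerfectMatchingHardMod2
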